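import Mathlib
import Pool.Agent.Helper723.ZO3

set_option autoImplicit false
open Polynomial

namespace Pool.Agent.Helper141.ZeroOne

open Pool.Agent.Helper723.ZeroOne

/-- Stronger form of helper723's theorem: it is enough that the coefficients of
`A = P * reflect n Q` lie in a field generated by totally real numbers. -/
theorem main_gen (P Q : ℝ[X]) (hP : P.Monic) (hQ : Q.Monic) (hp : ∀ i, 0 ≤ P.coeff i)
    (hq : ∀ i, 0 ≤ Q.coeff i)
    (hR : ∀ k, (P * Q).coeff k = 0 ∨ (P * Q).coeff k = 1)
    (S : Set ℝ) [Finite S] (hSint : ∀ x ∈ S, IsIntegral ℚ x)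
    (htr : ∀ x ∈ S, ∀ z : ℂ, aeval z (minpoly ℚ x) = 0 → z.im = 0)
    (hAS : ∀ k, (P * reflect Q.natDegree Q).coeff k ∈ IntermediateField.adjoin ℚ S) :
    (∀ i, P.coeff i = 0 ∨ P.coeff i = 1) ∧ (∀ i, Q.coeff i = 0 ∨ Q.coeff i = 1) := by
  classical
  -- an integer polynomial
  obtain ⟨f, hf⟩ : ∃ f : ℤ[X], f.map (algebraMap ℤ ℝ) = P * Q := by
    rw [← mem_lifts, lifts_iff_coeff_lifts]
    intro n
    rcases hR n with h | h <;> rw [h]
    · exact ⟨0, by simp⟩
    · exact ⟨1, by simp⟩
  have hfm : f.Monic := by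
    have hinj : Function.Injective (algebraMap ℤ ℝ) := Int.cast_injective
    refine (Function.Injective.monic_map_iff hinj).mpr ?_
    rw [hf]; exact hP.mul hQ
  have hlift : ∀ g : ℝ[X], g.Monic → g ∣ P * Q → ∀ i, IsIntegral ℤ (g.coeff i) := by
    intro g hg hd i
    have h1 := integralClosure.mem_lifts_of_monic_of_dvd_map ℝ hfm hg (by rw [hf]; exact hd)
    obtain ⟨y, hy⟩ := (lifts_iff_coeff_lifts _).1 h1 i
    rw [← hy]; exact y.2
  have hPint := hlift P hP (dvd_mul_right _ _)
  have hQint := hlift Q hQ (dvd_mul_left _ _)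
  set K := IntermediateField.adjoin ℚ S with hK
  have hfin : FiniteDimensional ℚ K := IntermediateField.finiteDimensional_adjoin hSint
  have himz : ∀ (σ : K →ₐ[ℚ] ℂ) (x : K), (σ x).im = 0 := fun σ x => im_zero S htr σ x
  set m := P.natDegree with hm
  set n := Q.natDegree with hn
  have hinj : Function.Injective (algebraMap K ℝ) := (algebraMap K ℝ).injective
  have hid := sum_identity P Q m n le_rfl le_rfl (by
    intro k
    rcases hR k with h | h <;> rw [h] <;> norm_num)
  have hAint : ∀ k, IsIntegral ℤ ((P * reflect n Q).coeff k) := by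
    intro k
    rw [coeff_mul]
    refine IsIntegral.sum _ fun x _ => ?_
    refine IsIntegral.mul (hPint _) ?_
    rw [coeff_reflect]; exact hQint _
  set α : ℕ → K := fun k => ⟨(P * reflect n Q).coeff k, hAS k⟩ with hα
  have hαm : ∀ k, algebraMap K ℝ (α k) = (P * reflect n Q).coeff k := fun k => rfl
  have hαint : ∀ k, IsIntegral ℤ (α k) := by
    intro k
    refine (isIntegral_algebraMap_iff (B := ℝ) hinj).mp ?_
    rw [hαm]; exact hAint k
  have hidK : ∑ k ∈ Finset.range (m + n + 1), (α k ^ 2 - α k) = 0 := by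
    apply hinj
    rw [map_sum, map_zero, ← hid]
    refine Finset.sum_congr rfl fun k _ => ?_
    rw [map_sub, map_pow, hαm]
  have hz := all_zero (Finset.range (m + n + 1))
    (fun k => α k ^ 2 - α k)
    (fun k _ => ((hαint k).pow 2).sub (hαint k))
    (fun k _ σ => by
      have h1 := himz σ (α k)
      set z := σ (α k) with hz
      have h2 : z = ((z.re : ℝ) : ℂ) := by apply Complex.ext <;> simp [h1]
      rw [map_sub, map_pow, ← hz, h2]
      constructor
      · rw [← Complex.ofReal_pow, ← Complex.ofReal_sub]; exact Complex.ofReal_im _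
      · rw [← Complex.ofReal_pow, ← Complex.ofReal_sub, Complex.ofReal_re]
        nlinarith [sq_nonneg (z.re - 1/2)])
    hidK
  have hzm := hz m (Finset.mem_range.mpr (by omega))
  refine last_step P Q hP hQ hp hq hR ?_
  have h2 : (P * reflect n Q).coeff m ^ 2 - (P * reflect n Q).coeff m = 0 := by
    rw [← hαm m, ← map_pow, ← map_sub]
    have h3 := congrArg (algebraMap K ℝ) hzm
    rw [map_zero] at h3
    exact h3
  nlinarith [sq_nonneg ((P * reflect n Q).coeff m - 1)]

end Pool.Agent.Helper141.ZeroOne
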